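import Pool.Agent.TH948.BD.Mixed
import Pool.Agent.TH11.BD1
import Pool.Agent.TH811.BD.Typ
import Pool.Agent.TH91.BD.NumCond
import Pool.Agent.TH543.BD.EdgeDensity
import Pool.Agent.TH230.BD.Limit

set_option autoImplicit false
set_option linter.unusedSectionVars false

/-!
# Spanning subgraphs of bounded degree: the threshold
-/

namespace Pool.Agent.TH948.BD

open Finset
open scoped Classical
open Pool.Agent.TH965.Spread Pool.Agent.TH948.KK Pool.Agent.TH965.Emb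

lemma log_bound {n : ℕ} (hn : 3 ≤ n) : (Nat.log 2 (n ^ 2) : ℝ) + 1 ≤ 4 * Real.log n := by
  have hn0 : (0 : ℝ) < n := by
    have : 0 < n := by omega
    exact_mod_cast this
  have h1 : (Nat.log 2 (n ^ 2) : ℝ) * Real.log 2 ≤ 2 * Real.log n := by
    have h : 2 ^ Nat.log 2 (n ^ 2) ≤ n ^ 2 := Nat.pow_log_le_self 2 (by positivity)
    have h' : ((2 : ℝ) ^ Nat.log 2 (n ^ 2)) ≤ (n : ℝ) ^ 2 := by exact_mod_cast h
    have h2 := Real.log_le_log (by positivity) h'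
    rw [Real.log_pow, Real.log_pow] at h2
    exact_mod_cast h2
  have h2 : (0.6931471803 : ℝ) < Real.log 2 := Real.log_two_gt_d9
  have h3 : 1 ≤ Real.log n := by
    rw [Real.le_log_iff_exp_le hn0]
    have h4 : (3 : ℝ) ≤ n := by exact_mod_cast hn
    linarith [Real.exp_one_lt_d9]
  have h5 : (0 : ℝ) ≤ Nat.log 2 (n ^ 2) := by positivity
  nlinarith

/-- With probability at least `5/7` the random graph contains `H`. -/
theorem five_sevenths (r : ℕ) (hr : 2 ≤ r) : ∃ C : ℝ, 0 < C ∧ ∀ᶠ n : ℕ in Filter.atTop,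
    ∀ H : SimpleGraph (Fin n), (∀ v, H.degree v ≤ r - 1) →
      C * ((n : ℝ) ^ (-((2 : ℝ) / r)) * (Real.log n) ^ ((1 : ℝ) / ((r.choose 2 : ℕ) : ℝ))) ≤ 1 →
      5 / 7 ≤ Pool.Agent.TH965.gnp n
        (C * ((n : ℝ) ^ (-((2 : ℝ) / r)) * (Real.log n) ^ ((1 : ℝ) / ((r.choose 2 : ℕ) : ℝ))))
        (fun G => ∃ f : Fin n → Fin n, Function.Injective f ∧
          ∀ u v : Fin n, H.Adj u v → G.Adj (f u) (f v)) := by
  have hrpos : (0 : ℝ) < r := by
    have : 0 < r := by omega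
    exact_mod_cast this
  set C₁ : ℝ := 128 * (9 * r) ^ (r - 1) with hC₁d
  have hC₁ : 0 < C₁ := by positivity
  set B : ℝ := 8 ^ r + 1 with hBd
  have hB1 : 1 ≤ B := by
    have : (0 : ℝ) < 8 ^ r := by positivity
    linarith
  have hBpos : 0 < B := by linarith
  set C₃ : ℝ := 4 * B * C₁ with hC₃d
  have hC₃ : 0 < C₃ := by positivity
  have hepos : 0 < r.choose 2 := Nat.choose_pos hr
  have hepos' : (0 : ℝ) < (r.choose 2 : ℕ) := by exact_mod_cast hepos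
  have he2 : ((r.choose 2 : ℕ) : ℝ) * 2 = r * (r - 1 : ℕ) := by
    have h3 : r.choose 2 * 2 = r * (r - 1) := by
      rw [Nat.choose_two_right]
      exact Nat.div_mul_cancel (Nat.even_mul_pred_self r).two_dvd
    exact_mod_cast h3
  obtain ⟨C₂, hC₂, htyp⟩ := typ_whp r hr C₁ hC₁
  refine ⟨C₃ ^ ((1 : ℝ) / ((r.choose 2 : ℕ) : ℝ)) + (C₁ + 1), by positivity, ?_⟩
  filter_upwards [htyp, numCond_ev r hr C₃ C₂ hC₃ hC₂, edge_density_ev r hr C₁ hC₁,
    Filter.eventually_ge_atTop (9 * r), Filter.eventually_ge_atTop 3] with n h1 h2 h3 h4 h5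
  intro H hH hle
  have hnpos : (0 : ℝ) < n := by
    have : 0 < n := by omega
    exact_mod_cast this
  have hlog : 0 < Real.log n := by
    apply Real.log_pos
    have : 1 < n := by omega
    exact_mod_cast this
  set base : ℝ := (n : ℝ) ^ (-((2 : ℝ) / r)) * (Real.log n) ^ ((1 : ℝ) / ((r.choose 2 : ℕ) : ℝ))
    with hbase
  have hbase0 : 0 < base := by positivity
  set t : ℝ := C₃ * Real.log n / (n : ℝ) ^ (r - 1) with ht
  have ht0 : 0 < t := by positivity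
  set p₁ : ℝ := t ^ ((1 : ℝ) / ((r.choose 2 : ℕ) : ℝ)) with hp₁
  have hp₁0 : 0 < p₁ := by positivity
  have hp₁e : p₁ ^ (r.choose 2) = t := by
    rw [hp₁, ← Real.rpow_natCast, ← Real.rpow_mul ht0.le, one_div_mul_cancel hepos'.ne',
      Real.rpow_one]
  have hp₁b : p₁ = C₃ ^ ((1 : ℝ) / ((r.choose 2 : ℕ) : ℝ)) * base := by
    rw [hp₁, ht, hbase, Real.div_rpow (by positivity) (by positivity),
      Real.mul_rpow hC₃.le hlog.le, ← Real.rpow_natCast (n : ℝ) (r - 1), ← Real.rpow_mul hnpos.le,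
      div_eq_mul_inv, ← Real.rpow_neg hnpos.le]
    have : -(((r - 1 : ℕ) : ℝ) * (1 / ((r.choose 2 : ℕ) : ℝ))) = -((2 : ℝ) / r) := by
      rw [neg_inj]
      field_simp
      linarith
    rw [this]; ring
  have hC₃p : 0 < C₃ ^ ((1 : ℝ) / ((r.choose 2 : ℕ) : ℝ)) := by positivity
  have hp₁1 : p₁ ≤ 1 := by
    refine le_trans ?_ hle
    rw [hp₁b]
    nlinarith
  have hπ : p₁ ^ (r.choose 2) / (4 * B) = C₁ * Real.log n / (n : ℝ) ^ (r - 1) := by
    rw [hp₁e, ht, hC₃d]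
    field_simp
  set M : ℕ := ⌈(9 * r / n : ℝ) ^ (2 * r / ((r : ℝ) ^ 2 - 1) - (r - 1))⌉₊ with hM
  have hM1 : 1 ≤ M := by
    rw [hM]
    exact Nat.one_le_iff_ne_zero.mpr (by
      rw [ne_eq, Nat.ceil_eq_zero, not_le]
      positivity)
  have hNC := h2 p₁ hp₁0.le hp₁1 hp₁e.le
  have key := gnp_ge (D := ⌈C₂ * Real.log n⌉₊) hr h4 H hH M hM1 (Nat.le_ceil _) B hB1 p₁ hp₁0.le
    hp₁1 (fun A hA hT h hh => sum_le hr hp₁0.le hp₁1 hA hT hNC hh) ?_ ?_
  · have hπ0 : 0 ≤ C₁ * Real.log n / (n : ℝ) ^ (r - 1) := by positivity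
    have hπ1 : C₁ * Real.log n / (n : ℝ) ^ (r - 1) ≤ 1 := by
      rw [← hπ, div_le_one (by positivity)]
      have := pow_le_one₀ (n := r.choose 2) hp₁0.le hp₁1
      linarith
    rw [hπ] at key
    refine key.trans ?_
    have hq0 : 0 ≤ 1 - (1 - C₁ * Real.log n / (n : ℝ) ^ (r - 1)) ^ M := by
      have := pow_le_one₀ (n := M) (by linarith :
        (0:ℝ) ≤ 1 - C₁ * Real.log n / (n : ℝ) ^ (r - 1)) (by linarith)
      linarith
    have hq1 : 1 - (1 - C₁ * Real.log n / (n : ℝ) ^ (r - 1)) ^ M ≤ 1 := by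
      have := pow_nonneg (by linarith : (0:ℝ) ≤ 1 - C₁ * Real.log n / (n : ℝ) ^ (r - 1)) M
      linarith
    have hq2 : 1 - (1 - C₁ * Real.log n / (n : ℝ) ^ (r - 1)) ^ M ≤ (C₁ + 1) * base := by
      refine le_trans ?_ h3
      have := one_add_mul_le_pow (a := -(C₁ * Real.log n / (n : ℝ) ^ (r - 1))) (by linarith) M
      rw [← sub_eq_add_neg] at this
      linarith
    apply Pool.Agent.TH965.gnp_mono n _ _ hle
    · intro G G' hG hP
      obtain ⟨f, hf, hfa⟩ := hP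
      exact ⟨f, hf, fun u v huv => hG (hfa u v huv)⟩
    · nlinarith [mul_nonneg hq0 hp₁0.le, mul_nonneg (by linarith :
        0 ≤ 1 - (1 - (1 - C₁ * Real.log n / (n : ℝ) ^ (r - 1)) ^ M)) hp₁0.le]
    · have : 0 ≤ (1 - (1 - C₁ * Real.log n / (n : ℝ) ^ (r - 1)) ^ M) * p₁ :=
        mul_nonneg hq0 hp₁0.le
      rw [add_mul, ← hp₁b]
      linarith
  · rw [hπ, div_pow, hC₁d]
    have := log_bound h5
    rw [le_div_iff₀ (by positivity)]
    have e : ((Nat.log 2 (n ^ 2) : ℝ) + 1) * (32 * ((9 * r) ^ (r - 1) / (n : ℝ) ^ (r - 1)))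
        * (n : ℝ) ^ (r - 1) = ((Nat.log 2 (n ^ 2) : ℝ) + 1) * (32 * (9 * r) ^ (r - 1)) := by
      field_simp
    rw [e]
    have h6 : (0 : ℝ) ≤ 32 * (9 * r) ^ (r - 1) := by positivity
    nlinarith [mul_le_mul_of_nonneg_right this h6]
  · rw [hπ]; exact h1

end Pool.Agent.TH948.BD
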