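import Pool.Agent.TH948.BD.Coupling

set_option autoImplicit false
set_option linter.unusedSectionVars false

/-!
# Random subsets of composite ground sets
-/

namespace Pool.Agent.TH948.BD

open Finset
open Pool.Agent.TH965.Spread Pool.Agent.TH948.KK

noncomputable section

variable {X Y : Type*} [DecidableEq X] [DecidableEq Y]

lemma exs_map (ι : X ↪ Y) (s : Finset X) (p : ℝ) : ∀ f : Finset Y → ℝ,
    exs (s.map ι) p f = exs s p (fun W => f (W.map ι)) := by
  induction s using Finset.induction_on with
  | empty => intro f; simp [exs_empty]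
  | insert x s hx ih =>
    intro f
    have hx' : ι x ∉ s.map ι := by simpa using hx
    rw [Finset.map_insert, exs_insert _ _ hx', exs_insert s x hx, ih f,
      ih (fun W => f (insert (ι x) W))]
    simp only [Finset.map_insert]

lemma exs_disj_union (s t : Finset X) (hst : Disjoint s t) (p : ℝ) : ∀ f : Finset X → ℝ,
    exs (s ∪ t) p f = exs s p (fun U => exs t p (fun V => f (U ∪ V))) := by
  induction s using Finset.induction_on with
  | empty => intro f; simp [exs_empty]
  | insert x s hx ih =>
    intro f
    have hxt : x ∉ t := Finset.disjoint_left.mp hst (Finset.mem_insert_self x s)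
    have hst' : Disjoint s t := hst.mono_left (Finset.subset_insert x s)
    have hx' : x ∉ s ∪ t := by
      rw [Finset.mem_union]; tauto
    rw [Finset.insert_union, exs_insert _ x hx', exs_insert s x hx, ih hst' f,
      ih hst' (fun W => f (insert x W))]
    simp only [Finset.insert_union]

lemma exs_disjSum (s : Finset X) (t : Finset Y) (p : ℝ) (f : Finset (X ⊕ Y) → ℝ) :
    exs (s.disjSum t) p f = exs s p (fun U => exs t p (fun V => f (U.disjSum V))) := by
  have h : s.disjSum t = s.map Function.Embedding.inl ∪ t.map Function.Embedding.inr := by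
    ext x
    rcases x with x | x <;> simp
  have hd : Disjoint (s.map (Function.Embedding.inl : X ↪ X ⊕ Y))
      (t.map (Function.Embedding.inr : Y ↪ X ⊕ Y)) := by
    rw [Finset.disjoint_left]
    intro x hx hx'
    rw [Finset.mem_map] at hx hx'
    obtain ⟨a, _, rfl⟩ := hx
    obtain ⟨b, _, hb⟩ := hx'
    simp at hb
  rw [h, exs_disj_union _ _ hd, exs_map]
  apply exs_congr
  intro U _
  rw [exs_map]
  apply exs_congr
  intro V _
  congr 1
  ext x
  rcases x with x | x <;> simp

lemma exs_zero (s : Finset X) (f : Finset X → ℝ) : exs s 0 f = f ∅ := by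
  induction s using Finset.induction_on with
  | empty => simp [exs_empty]
  | insert x s hx ih => rw [exs_insert s x hx, ih]; ring

lemma exs_prod_range (s : Finset X) (p : ℝ) (M : ℕ) : ∀ g : Finset X → ℝ,
    exs (s ×ˢ Finset.range M) p (fun U => g (U.image Prod.fst)) = exs s (1 - (1 - p) ^ M) g := by
  induction M with
  | zero =>
    intro g
    simp [exs_empty, exs_zero]
  | succ M ih =>
    intro g
    have hemb : Function.Injective (fun x : X => (x, M)) := fun a b h => (Prod.mk.inj h).1
    have h1 : s ×ˢ Finset.range (M + 1)
        = (s ×ˢ Finset.range M) ∪ s.map ⟨fun x : X => (x, M), hemb⟩ := by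
      ext ⟨x, k⟩
      simp only [Finset.mem_product, Finset.mem_range, Finset.mem_union, Finset.mem_map,
        Function.Embedding.coeFn_mk, Prod.mk.injEq]
      constructor
      · rintro ⟨hx, hk⟩
        rcases Nat.lt_or_ge k M with h | h
        · exact Or.inl ⟨hx, h⟩
        · exact Or.inr ⟨x, hx, rfl, by omega⟩
      · rintro (⟨hx, hk⟩ | ⟨a, ha, rfl, rfl⟩)
        · exact ⟨hx, by omega⟩
        · exact ⟨ha, by omega⟩
    have hd : Disjoint (s ×ˢ Finset.range M) (s.map ⟨fun x : X => (x, M), hemb⟩) := by
      rw [Finset.disjoint_left]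
      rintro ⟨x, k⟩ hx hx'
      simp only [Finset.mem_product, Finset.mem_range] at hx
      simp only [Finset.mem_map, Function.Embedding.coeFn_mk, Prod.mk.injEq] at hx'
      obtain ⟨a, _, _, h⟩ := hx'
      omega
    rw [h1, exs_disj_union _ _ hd]
    have h2 : exs (s ×ˢ Finset.range M) p (fun U => exs (s.map ⟨fun x : X => (x, M), hemb⟩) p
        (fun V => g ((U ∪ V).image Prod.fst)))
        = exs (s ×ˢ Finset.range M) p
          (fun U => (fun U' => exs s p (fun V => g (U' ∪ V))) (U.image Prod.fst)) := by
      apply exs_congr
      intro U _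
      rw [exs_map]
      apply exs_congr
      intro V _
      congr 1
      rw [Finset.image_union]
      congr 1
      ext x
      simp
    rw [h2, ih (fun U' => exs s p (fun V => g (U' ∪ V))), ← exs_union]
    congr 1
    rw [pow_succ]; ring

end

end Pool.Agent.TH948.BD
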