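import Pool.Agent.TH948.BD.Defs
import Pool.Agent.TH965.Final

set_option autoImplicit false
set_option linter.unusedSectionVars false

/-!
# A coupling between random hypergraphs and cliques of a random graph

The thinned family of those sets whose pairs all lie in a random graph dominates, up to a small error,
a family with independent members.
-/

namespace Pool.Agent.TH948.BD

open Finset
open Pool.Agent.TH965.Spread Pool.Agent.TH948.KK

noncomputable section

section gen

variable {X : Type*} [DecidableEq X] {I : Type*} [DecidableEq I]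

lemma exs_congr (s : Finset X) (p : ℝ) {f g : Finset X → ℝ} (h : ∀ W ⊆ s, f W = g W) :
    exs s p f = exs s p g := by
  unfold exs
  exact Finset.sum_congr rfl (fun W hW => by rw [h W (Finset.mem_powerset.mp hW)])

lemma exs_nonneg (s : Finset X) {p : ℝ} (hp0 : 0 ≤ p) (hp1 : p ≤ 1) {f : Finset X → ℝ}
    (h : ∀ W ⊆ s, 0 ≤ f W) : 0 ≤ exs s p f := by
  unfold exs
  refine Finset.sum_nonneg (fun W hW => mul_nonneg (mul_nonneg (pow_nonneg hp0 _)
    (pow_nonneg (by linarith) _)) (h W (Finset.mem_powerset.mp hW)))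

lemma exs_sub (s : Finset X) (p : ℝ) (f g : Finset X → ℝ) :
    exs s p (fun W => f W - g W) = exs s p f - exs s p g := by
  unfold exs
  rw [← Finset.sum_sub_distrib]
  exact Finset.sum_congr rfl (fun W _ => by ring)

lemma harris (s : Finset X) {p : ℝ} (hp0 : 0 ≤ p) (hp1 : p ≤ 1) :
    ∀ (f g : Finset X → ℝ) (_ : ∀ U V, U ⊆ V → f V ≤ f U) (_ : ∀ U V, U ⊆ V → g V ≤ g U),
      exs s p f * exs s p g ≤ exs s p (fun W => f W * g W) := by
  induction s using Finset.induction_on with
  | empty => intro f g _ _; simp [exs_empty]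
  | insert x s hx ih =>
    intro f g hf hg
    rw [exs_insert s x hx, exs_insert s x hx, exs_insert s x hx]
    have h1 := ih f g hf hg
    have h2 := ih (fun W => f (insert x W)) (fun W => g (insert x W))
      (fun U V h => hf _ _ (Finset.insert_subset_insert x h))
      (fun U V h => hg _ _ (Finset.insert_subset_insert x h))
    have h3 : exs s p (fun W => f (insert x W)) ≤ exs s p f :=
      exs_mono s hp0 hp1 (fun W _ => hf _ _ (Finset.subset_insert x W))
    have h4 : exs s p (fun W => g (insert x W)) ≤ exs s p g :=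
      exs_mono s hp0 hp1 (fun W _ => hg _ _ (Finset.subset_insert x W))
    have h5 := mul_le_mul_of_nonneg_left h1 (by linarith : (0:ℝ) ≤ 1 - p)
    have h6 := mul_le_mul_of_nonneg_left h2 hp0
    have h7 : 0 ≤ p * (1 - p) * ((exs s p f - exs s p (fun W => f (insert x W)))
        * (exs s p g - exs s p (fun W => g (insert x W)))) :=
      mul_nonneg (mul_nonneg hp0 (by linarith)) (mul_nonneg (by linarith) (by linarith))
    nlinarith [h5, h6, h7]

lemma harris_prod (s : Finset X) {p : ℝ} (hp0 : 0 ≤ p) (hp1 : p ≤ 1) (F : Finset X → ℝ)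
    (hF : ∀ U V, U ⊆ V → F V ≤ F U) (hF0 : ∀ W, 0 ≤ F W) (φ : I → Finset X → ℝ)
    (hφ : ∀ i, ∀ U V, U ⊆ V → φ i V ≤ φ i U) (hφ0 : ∀ i W, 0 ≤ φ i W) (N : Finset I) :
    exs s p F * ∏ i ∈ N, exs s p (φ i) ≤ exs s p (fun W => F W * ∏ i ∈ N, φ i W) := by
  induction N using Finset.induction_on with
  | empty => simp
  | insert i N hi ih =>
    rw [Finset.prod_insert hi]
    have hA : exs s p (fun W => F W * ∏ j ∈ insert i N, φ j W)
        = exs s p (fun W => (F W * ∏ j ∈ N, φ j W) * φ i W) := by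
      apply exs_congr
      intro W _
      rw [Finset.prod_insert hi]; ring
    rw [hA]
    have h1 := harris s hp0 hp1 (fun W => F W * ∏ j ∈ N, φ j W) (φ i)
      (fun U V h => mul_le_mul (hF U V h)
        (Finset.prod_le_prod (fun j _ => hφ0 j V) (fun j _ => hφ j U V h))
        (Finset.prod_nonneg (fun j _ => hφ0 j V)) (hF0 U)) (hφ i)
    refine le_trans ?_ h1
    have h2 : 0 ≤ exs s p (φ i) := exs_nonneg s hp0 hp1 (fun W _ => hφ0 i W)
    have h3 := mul_le_mul_of_nonneg_right ih h2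
    calc exs s p F * (exs s p (φ i) * ∏ j ∈ N, exs s p (φ j))
        = exs s p F * (∏ j ∈ N, exs s p (φ j)) * exs s p (φ i) := by ring
      _ ≤ _ := h3

lemma exs_contains (p : ℝ) : ∀ (R s : Finset X) (_ : R ⊆ s) (f : Finset X → ℝ),
    exs s p (fun W => ind (R ⊆ W) * f W) = p ^ R.card * exs (s \ R) p (fun W => f (R ∪ W)) := by
  intro R
  induction R using Finset.induction_on with
  | empty =>
    intro s _ f
    simp only [Finset.empty_subset, ind_true, one_mul, Finset.card_empty, pow_zero,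
      Finset.sdiff_empty, Finset.empty_union]
  | insert x R hx ih =>
    intro s hR f
    have hxs : x ∈ s := hR (Finset.mem_insert_self x R)
    have hRs : R ⊆ s.erase x := by
      intro y hy
      rw [Finset.mem_erase]
      exact ⟨fun h => hx (h ▸ hy), hR (Finset.mem_insert_of_mem hy)⟩
    have hs : s = insert x (s.erase x) := (Finset.insert_erase hxs).symm
    have e1 : exs s p (fun W => ind (insert x R ⊆ W) * f W)
        = (1 - p) * exs (s.erase x) p (fun W => ind (insert x R ⊆ W) * f W)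
          + p * exs (s.erase x) p (fun W => ind (insert x R ⊆ insert x W) * f (insert x W)) := by
      conv_lhs => rw [hs]
      exact exs_insert _ x (Finset.notMem_erase x s) p _
    have e2 : exs (s.erase x) p (fun W => ind (insert x R ⊆ W) * f W) = 0 := by
      rw [exs_congr (s.erase x) p (g := fun _ => 0), exs_const]
      intro W hW
      rw [ind_false, zero_mul]
      intro h
      exact Finset.notMem_erase x s (hW (h (Finset.mem_insert_self x R)))
    have e3 : exs (s.erase x) p (fun W => ind (insert x R ⊆ insert x W) * f (insert x W))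
        = exs (s.erase x) p (fun W => ind (R ⊆ W) * f (insert x W)) := by
      apply exs_congr
      intro W _
      rw [ind_congr (Finset.insert_subset_insert_iff hx)]
    rw [e1, e2, e3, ih (s.erase x) hRs (fun W => f (insert x W)), Finset.card_insert_of_notMem hx,
      pow_succ, mul_zero, zero_add]
    have e4 : s.erase x \ R = s \ insert x R := by
      ext y; simp only [Finset.mem_sdiff, Finset.mem_erase, Finset.mem_insert]; tauto
    rw [e4, ← mul_assoc, mul_comm p]
    congr 1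
    apply exs_congr
    intro W _
    rw [Finset.insert_union]

lemma exs_shrink {p : ℝ} (hp0 : 0 ≤ p) (hp1 : p ≤ 1) (f : Finset X → ℝ)
    (hf : ∀ U V, U ⊆ V → f V ≤ f U) {s t : Finset X} (hts : t ⊆ s) :
    exs s p f ≤ exs t p f := by
  obtain ⟨u, hu⟩ : ∃ u : Finset X, s = t ∪ u := ⟨s, (Finset.union_eq_right.mpr hts).symm⟩
  subst hu
  clear hts
  induction u using Finset.induction_on with
  | empty => rw [Finset.union_empty]
  | insert x u hx ih =>
    by_cases hxt : x ∈ t ∪ u
    · rw [Finset.union_insert, Finset.insert_eq_of_mem hxt]; exact ih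
    · rw [Finset.union_insert, exs_insert _ x hxt]
      have : exs (t ∪ u) p (fun W => f (insert x W)) ≤ exs (t ∪ u) p f :=
        exs_mono _ hp0 hp1 (fun W _ => hf _ _ (Finset.subset_insert x W))
      nlinarith [this, ih, mul_le_mul_of_nonneg_left this hp0]

lemma one_sub_sum_le_prod (N : Finset I) (a : I → ℝ) (ha0 : ∀ i ∈ N, 0 ≤ a i)
    (ha1 : ∀ i ∈ N, a i ≤ 1) : 1 - ∑ i ∈ N, a i ≤ ∏ i ∈ N, (1 - a i) := by
  induction N using Finset.induction_on with
  | empty => simp
  | insert i N hi ih =>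
    rw [Finset.sum_insert hi, Finset.prod_insert hi]
    have h1 := ih (fun j hj => ha0 j (Finset.mem_insert_of_mem hj))
      (fun j hj => ha1 j (Finset.mem_insert_of_mem hj))
    have h2 : 0 ≤ ∑ j ∈ N, a j :=
      Finset.sum_nonneg (fun j hj => ha0 j (Finset.mem_insert_of_mem hj))
    have h3 := ha0 i (Finset.mem_insert_self i N)
    have h4 := ha1 i (Finset.mem_insert_self i N)
    have h5 := mul_le_mul_of_nonneg_left h1 (by linarith : (0:ℝ) ≤ 1 - a i)
    nlinarith [mul_nonneg h3 h2]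

/-- The conditional probability, given the random set `W`, that no member of `N` is selected. -/
def gN (E : I → Finset X) (κ : ℝ) (N : Finset I) (W : Finset X) : ℝ :=
  ∏ i ∈ N, (1 - κ * ind (E i ⊆ W))

lemma fac_nonneg {κ : ℝ} (hκ0 : 0 ≤ κ) (hκ1 : κ ≤ 1) (P : Prop) : 0 ≤ 1 - κ * ind P := by
  nlinarith [ind_nonneg P, ind_le_one P]

lemma fac_le_one {κ : ℝ} (hκ0 : 0 ≤ κ) (P : Prop) : 1 - κ * ind P ≤ 1 := by
  nlinarith [ind_nonneg P, mul_nonneg hκ0 (ind_nonneg P)]

lemma fac_pos {κ : ℝ} (hκ0 : 0 ≤ κ) (hκ1 : κ < 1) (P : Prop) : 0 < 1 - κ * ind P := by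
  nlinarith [ind_nonneg P, ind_le_one P]

lemma gN_pos (E : I → Finset X) {κ : ℝ} (hκ0 : 0 ≤ κ) (hκ1 : κ < 1) (N : Finset I)
    (W : Finset X) : 0 < gN E κ N W :=
  Finset.prod_pos (fun _ _ => fac_pos hκ0 hκ1 _)

lemma gN_anti (E : I → Finset X) {κ : ℝ} (hκ0 : 0 ≤ κ) (hκ1 : κ < 1) (N : Finset I)
    (U V : Finset X) (h : U ⊆ V) : gN E κ N V ≤ gN E κ N U := by
  refine Finset.prod_le_prod (fun i _ => (fac_pos hκ0 hκ1 _).le) (fun i _ => ?_)
  have := mul_le_mul_of_nonneg_left (ind_mono (fun hV : E i ⊆ U => hV.trans h)) hκ0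
  linarith

/-- The weight of the event that all members of `P` and no member of `N` are selected, times the
expectation of `Φ` on this event. -/
def J (s : Finset X) (p : ℝ) (E : I → Finset X) (κ : ℝ) (P N : Finset I) (Φ : Finset X → ℝ) : ℝ :=
  κ ^ P.card * exs s p (fun W => ind (P.biUnion E ⊆ W) * (gN E κ N W * Φ W))

lemma J_split (s : Finset X) (p : ℝ) (E : I → Finset X) (κ : ℝ) (P N : Finset I)
    (Φ : Finset X → ℝ) {h : I} (hP : h ∉ P) (hN : h ∉ N) :
    J s p E κ P N Φ = J s p E κ (insert h P) N Φ + J s p E κ P (insert h N) Φ := by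
  unfold J
  rw [Finset.card_insert_of_notMem hP, pow_succ, mul_assoc, ← mul_add]
  congr 1
  rw [← exs_mul_left, ← exs_add]
  apply exs_congr
  intro W _
  unfold gN
  rw [Finset.prod_insert hN]
  have e : ind ((insert h P).biUnion E ⊆ W) = ind (P.biUnion E ⊆ W) * ind (E h ⊆ W) := by
    rw [Finset.biUnion_insert]
    by_cases h1 : P.biUnion E ⊆ W
    · by_cases h2 : E h ⊆ W
      · rw [ind_true h1, ind_true h2, ind_true (Finset.union_subset h2 h1), one_mul]
      · rw [ind_false h2, mul_zero, ind_false]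
        exact fun h => h2 (Finset.subset_union_left.trans h)
    · rw [ind_false h1, zero_mul, ind_false]
      exact fun h => h1 (Finset.subset_union_right.trans h)
  rw [e]; ring

lemma J_nonneg (s : Finset X) {p : ℝ} (hp0 : 0 ≤ p) (hp1 : p ≤ 1) (E : I → Finset X) {κ : ℝ}
    (hκ0 : 0 ≤ κ) (hκ1 : κ < 1) (P N : Finset I) (Φ : Finset X → ℝ)
    (hΦ : ∀ W ⊆ s, 0 ≤ Φ W) : 0 ≤ J s p E κ P N Φ :=
  mul_nonneg (pow_nonneg hκ0 _) (exs_nonneg s hp0 hp1 (fun W hW =>
    mul_nonneg (ind_nonneg _) (mul_nonneg (gN_pos E hκ0 hκ1 N W).le (hΦ W hW))))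

/-- The coupling. -/
theorem coupling_aux (s : Finset X) {p : ℝ} (hp0 : 0 ≤ p) (hp1 : p ≤ 1) (E : I → Finset X)
    {κ : ℝ} (hκ0 : 0 ≤ κ) (hκ1 : κ < 1) (L₀ : Finset I) (π : ℝ) (hπ0 : 0 ≤ π) (hπ1 : π ≤ 1)
    (Bad : Finset I → Prop) (hBad : ∀ A B, A ⊆ B → Bad A → Bad B)
    (hμ : ∀ P N : Finset I, ∀ h ∈ L₀, P ⊆ L₀ → N ⊆ L₀ → Disjoint P N → h ∉ P → h ∉ N →
      ¬ Bad (insert h P) →
      π * J s p E κ P N (fun _ => 1) ≤ J s p E κ (insert h P) N (fun _ => 1))
    (𝓐 : Finset I → Prop) (Φ : Finset X → ℝ) (hΦ0 : ∀ W ⊆ s, 0 ≤ Φ W)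
    (hΦ1 : ∀ A ⊆ L₀, 𝓐 A → ∀ W ⊆ s, A.biUnion E ⊆ W → 1 ≤ Φ W) :
    ∀ (L P N : Finset I), L ⊆ L₀ → P ⊆ L₀ → N ⊆ L₀ → Disjoint L P → Disjoint L N → Disjoint P N →
      J s p E κ P N (fun _ => 1) * (exs L π (fun A => ind (𝓐 (P ∪ A)))
        - exs L π (fun A => ind (Bad (P ∪ A)))) ≤ J s p E κ P N Φ := by
  intro L
  induction L using Finset.induction_on with
  | empty =>
    intro P N _ hP hN _ _ _
    rw [exs_empty, exs_empty, Finset.union_empty]
    have hJ1 : 0 ≤ J s p E κ P N (fun _ => 1) :=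
      J_nonneg s hp0 hp1 E hκ0 hκ1 P N _ (fun _ _ => zero_le_one)
    have hJ2 : 0 ≤ J s p E κ P N Φ := J_nonneg s hp0 hp1 E hκ0 hκ1 P N _ hΦ0
    by_cases hA : 𝓐 P
    · have : J s p E κ P N (fun _ => 1) ≤ J s p E κ P N Φ := by
        unfold J
        apply mul_le_mul_of_nonneg_left _ (pow_nonneg hκ0 _)
        apply exs_mono s hp0 hp1
        intro W hW
        by_cases hPW : P.biUnion E ⊆ W
        · have := mul_le_mul_of_nonneg_left (hΦ1 P hP hA W hW hPW) (gN_pos E hκ0 hκ1 N W).le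
          rw [ind_true hPW]; linarith
        · rw [ind_false hPW]; simp
      have h2 : ind (𝓐 P) - ind (Bad P) ≤ 1 := by
        linarith [ind_le_one (𝓐 P), ind_nonneg (Bad P)]
      calc _ ≤ J s p E κ P N (fun _ => 1) * 1 := mul_le_mul_of_nonneg_left h2 hJ1
        _ ≤ _ := by rw [mul_one]; exact this
    · have h2 : ind (𝓐 P) - ind (Bad P) ≤ 0 := by
        rw [ind_false hA]; linarith [ind_nonneg (Bad P)]
      exact (mul_nonpos_of_nonneg_of_nonpos hJ1 h2).trans hJ2
  | insert h L hhL ih =>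
    intro P N hL hP hN hLP hLN hPN
    have hhL₀ : h ∈ L₀ := hL (Finset.mem_insert_self h L)
    have hLL₀ : L ⊆ L₀ := (Finset.subset_insert h L).trans hL
    have hhP : h ∉ P := Finset.disjoint_left.mp hLP (Finset.mem_insert_self h L)
    have hhN : h ∉ N := Finset.disjoint_left.mp hLN (Finset.mem_insert_self h L)
    have hLP' : Disjoint L P := hLP.mono_left (Finset.subset_insert h L)
    have hLN' : Disjoint L N := hLN.mono_left (Finset.subset_insert h L)
    have hins : insert h P ⊆ L₀ := Finset.insert_subset hhL₀ hP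
    have hins' : insert h N ⊆ L₀ := Finset.insert_subset hhL₀ hN
    rw [exs_insert L h hhL, exs_insert L h hhL]
    have e1 : (fun W => ind (𝓐 (P ∪ insert h W))) = (fun W => ind (𝓐 (insert h P ∪ W))) := by
      funext W
      rw [Finset.union_insert, Finset.insert_union]
    have e2 : (fun W => ind (Bad (P ∪ insert h W))) = (fun W => ind (Bad (insert h P ∪ W))) := by
      funext W
      rw [Finset.union_insert, Finset.insert_union]
    rw [e1, e2]
    set a0 := exs L π (fun A => ind (𝓐 (P ∪ A))) with ha0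
    set b0 := exs L π (fun A => ind (Bad (P ∪ A))) with hb0
    set a1 := exs L π (fun A => ind (𝓐 (insert h P ∪ A))) with ha1
    set b1 := exs L π (fun A => ind (Bad (insert h P ∪ A))) with hb1
    have hJ1 : 0 ≤ J s p E κ P N (fun _ => 1) :=
      J_nonneg s hp0 hp1 E hκ0 hκ1 P N _ (fun _ _ => zero_le_one)
    have hJ2 : 0 ≤ J s p E κ P N Φ := J_nonneg s hp0 hp1 E hκ0 hκ1 P N _ hΦ0
    have ih0 := ih P N hLL₀ hP hN hLP' hLN' hPN
    by_cases hB : Bad (insert h P)
    · have hb : b1 = 1 := by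
        rw [hb1, exs_congr L π (g := fun _ => 1), exs_const]
        intro A _
        exact ind_true (hBad _ _ Finset.subset_union_left hB)
      have ha : a1 ≤ 1 := by
        rw [ha1]
        calc _ ≤ exs L π (fun _ => 1) := exs_mono L hπ0 hπ1 (fun A _ => ind_le_one _)
          _ = 1 := exs_const _ _ _
      by_cases h0 : 0 ≤ a0 - b0
      · refine le_trans ?_ ih0
        apply mul_le_mul_of_nonneg_left _ hJ1
        nlinarith [mul_nonneg hπ0 h0, mul_nonneg hπ0 (by linarith : 0 ≤ b1 - a1)]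
      · refine le_trans ?_ hJ2
        apply mul_nonpos_of_nonneg_of_nonpos hJ1
        push Not at h0
        nlinarith [mul_nonneg (by linarith : (0:ℝ) ≤ 1 - π) (by linarith : 0 ≤ b0 - a0),
          mul_nonneg hπ0 (by linarith : 0 ≤ b1 - a1)]
    · have hJh := hμ P N h hhL₀ hP hN hPN hhP hhN hB
      have ih1 := ih (insert h P) N hLL₀ hins hN
        (Finset.disjoint_insert_right.mpr ⟨hhL, hLP'⟩) hLN'
        (Finset.disjoint_insert_left.mpr ⟨hhN, hPN⟩)
      have ih2 := ih P (insert h N) hLL₀ hP hins' hLP'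
        (Finset.disjoint_insert_right.mpr ⟨hhL, hLN'⟩)
        (Finset.disjoint_insert_right.mpr ⟨hhP, hPN⟩)
      have hs1 := J_split s p E κ P N (fun _ => 1) hhP hhN
      have hs2 := J_split s p E κ P N Φ hhP hhN
      rw [← ha0, ← hb0] at ih2
      rw [← ha1, ← hb1] at ih1
      set μ := J s p E κ P N (fun _ => 1) with hμd
      set μ1 := J s p E κ (insert h P) N (fun _ => 1) with hμ1
      set μ2 := J s p E κ P (insert h N) (fun _ => 1) with hμ2
      set j := J s p E κ P N Φ with hj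
      set j1 := J s p E κ (insert h P) N Φ with hj1
      set j2 := J s p E κ P (insert h N) Φ with hj2
      -- θ with θ μ1 = π μ
      have hμ1n : 0 ≤ μ1 := J_nonneg s hp0 hp1 E hκ0 hκ1 _ _ _ (fun _ _ => zero_le_one)
      obtain ⟨θ, hθ0, hθ1, hθ⟩ : ∃ θ : ℝ, 0 ≤ θ ∧ θ ≤ 1 ∧ θ * μ1 = π * μ := by
        rcases eq_or_lt_of_le hμ1n with h0 | h0
        · refine ⟨0, le_rfl, zero_le_one, ?_⟩
          rw [zero_mul]
          have : 0 ≤ π * μ := mul_nonneg hπ0 hJ1
          linarith
        · refine ⟨π * μ / μ1, div_nonneg (mul_nonneg hπ0 hJ1) hμ1n, ?_, ?_⟩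
          · rw [div_le_one h0]; exact hJh
          · field_simp
      have k1 := mul_le_mul_of_nonneg_left ih1 hθ0
      have k2 := mul_le_mul_of_nonneg_left ih2 hθ0
      have k0 := mul_le_mul_of_nonneg_left ih0 (by linarith : (0:ℝ) ≤ 1 - θ)
      have key : μ * ((1 - π) * a0 + π * a1 - ((1 - π) * b0 + π * b1))
          = θ * (μ1 * (a1 - b1)) + θ * (μ2 * (a0 - b0)) + (1 - θ) * (μ * (a0 - b0)) := by
        have : μ2 = μ - μ1 := by linarith
        rw [this]
        have : θ * (μ1 * (a1 - b1)) = π * μ * (a1 - b1) := by rw [← hθ]; ring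
        rw [this]
        have : θ * ((μ - μ1) * (a0 - b0)) = (θ * μ - π * μ) * (a0 - b0) := by rw [← hθ]; ring
        rw [this]; ring
      rw [key]
      have : j = θ * j1 + θ * j2 + (1 - θ) * j := by
        have : j2 = j - j1 := by linarith
        rw [this]; ring
      rw [this]
      linarith

/-- One step of exposure: the conditional probability that a further set is selected. -/
theorem ratio (s : Finset X) {p : ℝ} (hp0 : 0 ≤ p) (hp1 : p ≤ 1) (E : I → Finset X) (e : ℕ) {κ : ℝ}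
    (hκ0 : 0 ≤ κ) (hκ1 : κ < 1) (P N : Finset I) (hP : ∀ i ∈ P, E i ⊆ s) (hN : ∀ i ∈ N, E i ⊆ s)
    (h : I) (hh : E h ⊆ s) (hhe : (E h).card ≤ e) (hhP : h ∉ P)
    (hB : κ * ∑ i ∈ N.filter (fun i => (E i ∩ E h).Nonempty),
      p ^ (E i \ (insert h P).biUnion E).card ≤ 1 / 2) :
    κ * p ^ e / 2 * J s p E κ P N (fun _ => 1) ≤ J s p E κ (insert h P) N (fun _ => 1) := by
  set R := P.biUnion E with hR
  set R' := (insert h P).biUnion E with hR'
  have hRe : R' = E h ∪ R := by rw [hR', Finset.biUnion_insert]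
  have hRs : R ⊆ s := Finset.biUnion_subset.mpr hP
  have hRs' : R' ⊆ s := by rw [hRe]; exact Finset.union_subset hh hRs
  have hRR' : R ⊆ R' := by rw [hRe]; exact Finset.subset_union_right
  have eJ : J s p E κ P N (fun _ => 1)
      = κ ^ P.card * (p ^ R.card * exs (s \ R) p (fun W => gN E κ N (R ∪ W))) := by
    unfold J
    rw [← hR, exs_contains p R s hRs]
    simp only [mul_one]
  have eJ' : J s p E κ (insert h P) N (fun _ => 1)
      = κ ^ (P.card + 1) * (p ^ R'.card * exs (s \ R') p (fun W => gN E κ N (R' ∪ W))) := by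
    unfold J
    rw [← hR', exs_contains p R' s hRs', Finset.card_insert_of_notMem hhP]
    simp only [mul_one]
  set N₁ := N.filter (fun i => (E i ∩ E h).Nonempty) with hN₁
  set N₀ := N.filter (fun i => ¬ (E i ∩ E h).Nonempty) with hN₀
  have hprod : ∀ W, gN E κ N W = gN E κ N₀ W * gN E κ N₁ W := by
    intro W
    unfold gN
    rw [mul_comm, hN₀, hN₁]
    exact (Finset.prod_filter_mul_prod_filter_not N _ _).symm
  have hanti : ∀ M : Finset I, ∀ S : Finset X, ∀ U V : Finset X, U ⊆ V →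
      gN E κ M (S ∪ V) ≤ gN E κ M (S ∪ U) := fun M S U V hUV =>
    gN_anti E hκ0 hκ1 M _ _ (Finset.union_subset_union_right hUV)
  have s1 : exs (s \ R) p (fun W => gN E κ N (R ∪ W)) ≤ exs (s \ R') p (fun W => gN E κ N (R ∪ W)) :=
    exs_shrink hp0 hp1 _ (hanti N R) (Finset.sdiff_subset_sdiff (Finset.Subset.refl s) hRR')
  have s2 : exs (s \ R') p (fun W => gN E κ N (R ∪ W))
      ≤ exs (s \ R') p (fun W => gN E κ N₀ (R ∪ W)) := by
    apply exs_mono _ hp0 hp1
    intro W _
    rw [hprod]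
    have h1 : gN E κ N₁ (R ∪ W) ≤ 1 := by
      unfold gN
      exact Finset.prod_le_one (fun i _ => (fac_pos hκ0 hκ1 _).le) (fun i _ => fac_le_one hκ0 _)
    have := mul_le_mul_of_nonneg_left h1 (gN_pos E hκ0 hκ1 N₀ (R ∪ W)).le
    linarith
  have s3 : ∀ W, gN E κ N₀ (R' ∪ W) = gN E κ N₀ (R ∪ W) := by
    intro W
    unfold gN
    apply Finset.prod_congr rfl
    intro i hi
    rw [hN₀, Finset.mem_filter] at hi
    have hd : Disjoint (E i) (E h) := by
      rw [Finset.disjoint_iff_inter_eq_empty, ← Finset.not_nonempty_iff_eq_empty]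
      exact hi.2
    have : ind (E i ⊆ R' ∪ W) = ind (E i ⊆ R ∪ W) := by
      apply ind_congr
      constructor
      · intro hs x hx
        have h1 := hs hx
        rw [hRe, Finset.mem_union, Finset.mem_union] at h1
        rcases h1 with (h1 | h1) | h1
        · exact absurd h1 (Finset.disjoint_left.mp hd hx)
        · exact Finset.mem_union_left _ h1
        · exact Finset.mem_union_right _ h1
      · intro hs
        exact hs.trans (Finset.union_subset_union_left hRR')
    rw [this]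
  have s4 : exs (s \ R') p (fun W => gN E κ N (R' ∪ W))
      = exs (s \ R') p (fun W => gN E κ N₀ (R ∪ W) * ∏ i ∈ N₁, (1 - κ * ind (E i ⊆ R' ∪ W))) := by
    apply exs_congr
    intro W _
    rw [hprod, s3]; rfl
  have s5 := harris_prod (s \ R') hp0 hp1 (fun W => gN E κ N₀ (R ∪ W)) (hanti N₀ R)
    (fun W => (gN_pos E hκ0 hκ1 N₀ _).le) (fun (i : I) W => 1 - κ * ind (E i ⊆ R' ∪ W))
    (fun i U V hUV => by
      have := mul_le_mul_of_nonneg_left
        (ind_mono (fun hU : E i ⊆ R' ∪ U => hU.trans (Finset.union_subset_union_right hUV))) hκ0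
      linarith)
    (fun i W => (fac_pos hκ0 hκ1 _).le) N₁
  rw [← s4] at s5
  have s6 : ∀ i ∈ N₁, exs (s \ R') p (fun W => 1 - κ * ind (E i ⊆ R' ∪ W))
      = 1 - κ * p ^ (E i \ R').card := by
    intro i hi
    rw [exs_sub, exs_const, exs_mul_left]
    have hEi : E i ⊆ s := hN i (Finset.mem_of_mem_filter i hi)
    have := exs_contains p (E i \ R') (s \ R')
      (Finset.sdiff_subset_sdiff hEi (Finset.Subset.refl _)) (fun _ => 1)
    rw [exs_const, mul_one] at this
    rw [← this]
    congr 2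
    apply exs_congr
    intro W _
    rw [mul_one]
    apply ind_congr
    constructor
    · intro hs x hx
      rw [Finset.mem_sdiff] at hx
      rcases Finset.mem_union.mp (hs hx.1) with h1 | h1
      · exact absurd h1 hx.2
      · exact h1
    · intro hs x hx
      by_cases h1 : x ∈ R'
      · exact Finset.mem_union_left _ h1
      · exact Finset.mem_union_right _ (hs (Finset.mem_sdiff.mpr ⟨hx, h1⟩))
  have s7 : (1 : ℝ) / 2 ≤ ∏ i ∈ N₁, exs (s \ R') p (fun W => 1 - κ * ind (E i ⊆ R' ∪ W)) := by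
    rw [Finset.prod_congr rfl s6]
    have h1 := one_sub_sum_le_prod N₁ (fun i => κ * p ^ (E i \ R').card)
      (fun i _ => mul_nonneg hκ0 (pow_nonneg hp0 _))
      (fun i _ => mul_le_one₀ hκ1.le (pow_nonneg hp0 _) (pow_le_one₀ hp0 hp1))
    rw [← Finset.mul_sum] at h1
    linarith
  have hF0 : 0 ≤ exs (s \ R') p (fun W => gN E κ N₀ (R ∪ W)) :=
    exs_nonneg _ hp0 hp1 (fun W _ => (gN_pos E hκ0 hκ1 N₀ _).le)
  have s8 : exs (s \ R) p (fun W => gN E κ N (R ∪ W)) * (1 / 2)
      ≤ exs (s \ R') p (fun W => gN E κ N (R' ∪ W)) := by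
    calc _ ≤ exs (s \ R') p (fun W => gN E κ N₀ (R ∪ W)) * (1 / 2) := by
          apply mul_le_mul_of_nonneg_right (s1.trans s2) (by norm_num)
      _ ≤ _ := (mul_le_mul_of_nonneg_left s7 hF0).trans s5
  have s9 : p ^ R.card * p ^ e ≤ p ^ R'.card := by
    rw [← pow_add]
    apply pow_le_pow_of_le_one hp0 hp1
    rw [hRe]
    have := Finset.card_union_le (E h) R
    omega
  rw [eJ, eJ']
  have hG0 : 0 ≤ exs (s \ R) p (fun W => gN E κ N (R ∪ W)) :=
    exs_nonneg _ hp0 hp1 (fun W _ => (gN_pos E hκ0 hκ1 N _).le)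
  calc κ * p ^ e / 2 * (κ ^ P.card * (p ^ R.card * exs (s \ R) p (fun W => gN E κ N (R ∪ W))))
      = κ ^ (P.card + 1) * ((p ^ R.card * p ^ e)
          * (exs (s \ R) p (fun W => gN E κ N (R ∪ W)) * (1 / 2))) := by ring
    _ ≤ _ := by
        apply mul_le_mul_of_nonneg_left _ (pow_nonneg hκ0 _)
        exact mul_le_mul s9 s8 (mul_nonneg hG0 (by norm_num)) (pow_nonneg hp0 _)

end gen

lemma prs_card {n r : ℕ} {h : Finset (Fin n)} (hh : h.card = r) : (prs h).card = r.choose 2 := by
  classical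
  subst hh
  rw [← Sym2.card_image_offDiag h]
  congr 1
  ext e
  induction e using Sym2.ind with
  | _ x y =>
    rw [mem_prs, Finset.mem_image]
    constructor
    · rintro ⟨hx, hy, hxy⟩
      exact ⟨(x, y), Finset.mem_offDiag.mpr ⟨hx, hy, hxy⟩, rfl⟩
    · rintro ⟨⟨a, b⟩, hab, he⟩
      rw [Finset.mem_offDiag] at hab
      have he' : s(a, b) = s(x, y) := he
      rw [Sym2.eq_iff] at he'
      rcases he' with ⟨rfl, rfl⟩ | ⟨rfl, rfl⟩
      · exact hab
      · exact ⟨hab.2.1, hab.1, fun h => hab.2.2 h.symm⟩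

lemma typ_anti {n r D : ℕ} {A B : Finset (Finset (Fin n))} (hAB : A ⊆ B) (hB : Typ r D B) :
    Typ r D A :=
  ⟨fun x => (Finset.card_le_card (Finset.filter_subset_filter _ hAB)).trans (hB.1 x),
    fun F hF => hB.2 F (hF.trans hAB)⟩

/-- A random family of `r`-sets with independent members is dominated by the cliques of a random
graph. -/
theorem coupling {n r D : ℕ} (B : ℝ) (hB1 : 1 ≤ B) {p : ℝ} (hp0 : 0 ≤ p) (hp1 : p ≤ 1)
    (hB : ∀ A ⊆ rsets n r, Typ r D A → ∀ h ∈ A,
      ∑ i ∈ (rsets n r).filter (fun i => i ∉ A ∧ 2 ≤ (i ∩ h).card), p ^ (prs i \ shad A).card ≤ B)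
    (𝓐 : Finset (Finset (Fin n)) → Prop) (Φ : Finset (Sym2 (Fin n)) → ℝ)
    (hΦ0 : ∀ W, 0 ≤ Φ W)
    (hΦ1 : ∀ A ⊆ rsets n r, 𝓐 A → ∀ W ⊆ Pool.Agent.TH965.Emb.eF (⊤ : SimpleGraph (Fin n)),
      shad A ⊆ W → 1 ≤ Φ W) :
    exs (rsets n r) (p ^ (r.choose 2) / (4 * B)) (fun A => ind (𝓐 A))
      - exs (rsets n r) (p ^ (r.choose 2) / (4 * B)) (fun A => ind (¬ Typ r D A))
      ≤ exs (Pool.Agent.TH965.Emb.eF (⊤ : SimpleGraph (Fin n))) p Φ := by
  have hprs : ∀ h : Finset (Fin n), prs h ⊆ Pool.Agent.TH965.Emb.eF (⊤ : SimpleGraph (Fin n)) := by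
    intro h e he
    induction e using Sym2.ind with
    | _ x y =>
      rw [mem_prs] at he
      rw [Pool.Agent.TH965.Emb.mem_eF, SimpleGraph.mem_edgeSet, SimpleGraph.top_adj]
      exact he.2.2
  have hκ0 : (0 : ℝ) ≤ 1 / (2 * B) := by positivity
  have hκ1 : 1 / (2 * B) < (1 : ℝ) := by
    rw [div_lt_one (by positivity)]; linarith
  have hπ : p ^ (r.choose 2) / (4 * B) = 1 / (2 * B) * p ^ (r.choose 2) / 2 := by
    field_simp; ring
  have hπ0 : 0 ≤ p ^ (r.choose 2) / (4 * B) := by positivity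
  have hπ1 : p ^ (r.choose 2) / (4 * B) ≤ 1 := by
    rw [div_le_one (by positivity)]
    have := pow_le_one₀ (n := r.choose 2) hp0 hp1
    linarith
  have key := coupling_aux (Pool.Agent.TH965.Emb.eF (⊤ : SimpleGraph (Fin n))) hp0 hp1
    (prs : Finset (Fin n) → Finset (Sym2 (Fin n))) hκ0 hκ1 (rsets n r)
    (p ^ (r.choose 2) / (4 * B)) hπ0 hπ1 (fun A => ¬ Typ r D A)
    (fun A C hAC hA hC => hA (typ_anti hAC hC)) ?_ 𝓐 Φ (fun W _ => hΦ0 W) hΦ1 (rsets n r) ∅ ∅
    (Finset.Subset.refl _) (Finset.empty_subset _) (Finset.empty_subset _)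
    (Finset.disjoint_empty_right _) (Finset.disjoint_empty_right _) (Finset.disjoint_empty_right _)
  · have e1 : ∀ Ψ : Finset (Sym2 (Fin n)) → ℝ,
        J (Pool.Agent.TH965.Emb.eF (⊤ : SimpleGraph (Fin n))) p prs (1 / (2 * B))
          (∅ : Finset (Finset (Fin n))) ∅ Ψ
        = exs (Pool.Agent.TH965.Emb.eF (⊤ : SimpleGraph (Fin n))) p Ψ := by
      intro Ψ
      unfold J gN
      simp only [Finset.card_empty, pow_zero, one_mul, Finset.biUnion_empty, Finset.empty_subset,
        ind_true, Finset.prod_empty]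
    rw [e1, e1, exs_const, one_mul] at key
    simpa only [Finset.empty_union] using key
  · intro P N h hh hP hN hPN hhP hhN hbad
    have htyp : Typ r D (insert h P) := not_not.mp hbad
    have hsum := hB (insert h P) (Finset.insert_subset hh hP) htyp h (Finset.mem_insert_self h P)
    rw [hπ]
    apply ratio _ hp0 hp1 prs (r.choose 2) hκ0 hκ1 P N (fun i _ => hprs i) (fun i _ => hprs i) h
      (hprs h) (prs_card (Finset.mem_powersetCard.mp hh).2).le hhP
    have hle : ∑ i ∈ N.filter (fun i => (prs i ∩ prs h).Nonempty),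
        p ^ (prs i \ (insert h P).biUnion prs).card ≤ B := by
      refine le_trans ?_ hsum
      apply Finset.sum_le_sum_of_subset_of_nonneg
      · intro i hi
        rw [Finset.mem_filter] at hi
        obtain ⟨hiN, e, he⟩ := hi
        rw [Finset.mem_filter]
        refine ⟨hN hiN, ?_, ?_⟩
        · intro h1
          rcases Finset.mem_insert.mp h1 with h2 | h2
          · exact hhN (h2 ▸ hiN)
          · exact Finset.disjoint_left.mp hPN h2 hiN
        · rw [Finset.mem_inter] at he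
          induction e using Sym2.ind with
          | _ x y =>
            rw [mem_prs, mem_prs] at he
            rw [show (2 : ℕ) = 1 + 1 from rfl, Nat.succ_le_iff, Finset.one_lt_card]
            exact ⟨x, Finset.mem_inter.mpr ⟨he.1.1, he.2.1⟩, y,
              Finset.mem_inter.mpr ⟨he.1.2.1, he.2.2.1⟩, he.1.2.2⟩
      · intro i _ _
        positivity
    calc 1 / (2 * B) * _ ≤ 1 / (2 * B) * B := mul_le_mul_of_nonneg_left hle hκ0
      _ = 1 / 2 := by field_simp

end

end Pool.Agent.TH948.BD
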