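import Mathlib
import Pool.Agent.TH948.KK.Defs
import Pool.Agent.TH965.Emb

set_option autoImplicit false
set_option linter.unusedSectionVars false

/-!
# Spanning subgraphs of bounded degree: definitions
-/

namespace Pool.Agent.TH948.BD

open Finset
open scoped Classical

noncomputable section

/-- The pairs of distinct vertices inside `h`. -/
def prs {n : ℕ} (h : Finset (Fin n)) : Finset (Sym2 (Fin n)) :=
  h.sym2.filter (fun e => ¬ e.IsDiag)

lemma mem_prs {n : ℕ} {h : Finset (Fin n)} {x y : Fin n} :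
    s(x, y) ∈ prs h ↔ x ∈ h ∧ y ∈ h ∧ x ≠ y := by
  simp [prs, Finset.mk_mem_sym2_iff, and_assoc]

/-- The union of the pairs over a family of sets of vertices. -/
def shad {n : ℕ} (A : Finset (Finset (Fin n))) : Finset (Sym2 (Fin n)) := A.biUnion prs

/-- All sets of `r` vertices. -/
def rsets (n r : ℕ) : Finset (Finset (Fin n)) := (univ : Finset (Fin n)).powersetCard r

/-- Typical families of `r`-sets: degrees at most `D`, and at most five members `F` cover at least
`(r - 1) |F|` vertices. -/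
def Typ {n : ℕ} (r D : ℕ) (A : Finset (Finset (Fin n))) : Prop :=
  (∀ x : Fin n, (A.filter (fun h => x ∈ h)).card ≤ D) ∧
  (∀ F ⊆ A, F.card ≤ 5 → (r - 1) * F.card ≤ (F.biUnion id).card)

/-- The numerical condition on the density. -/
def NumCond (n r D : ℕ) (p : ℝ) : Prop :=
  ∀ c m : ℕ, 1 ≤ c → c < r → r * (c - 1) + 1 ≤ 2 * m →
    (r : ℝ) * (n : ℝ) ^ (c - 1) * ((r : ℝ) * ((r : ℝ) * D + 1) ^ 2) ^ r * p ^ m ≤ 1 / r

/-- The vertex sets of the cliques of size `r` of `H`. -/
def cl {n : ℕ} (H : SimpleGraph (Fin n)) (r : ℕ) : Finset (Finset (Fin n)) :=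
  (rsets n r).filter (fun c => ∀ x ∈ c, ∀ y ∈ c, x ≠ y → H.Adj x y)

/-- The edges of `H` in no clique of size `r`. -/
def oth {n : ℕ} (H : SimpleGraph (Fin n)) (r : ℕ) : Finset (Sym2 (Fin n)) :=
  (Pool.Agent.TH965.Emb.eF H).filter (fun e => ∀ c ∈ cl H r, e ∉ prs c)

end

end Pool.Agent.TH948.BD
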