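import Pool.Agent.TH948.BD.Ground
import Pool.Agent.TH757.BD.Hom
import Pool.Agent.TH512.BD.Rank

set_option autoImplicit false
set_option linter.unusedSectionVars false

/-!
# Spread of the copies of a graph of bounded degree
-/

namespace Pool.Agent.TH948.BD

open Finset
open scoped Classical
open Pool.Agent.TH965.Spread Pool.Agent.TH948.KK Pool.Agent.TH965.Emb

noncomputable section

/-- The cliques of a copy of `H`. -/
def clS {n : ℕ} (H : SimpleGraph (Fin n)) (r : ℕ) (σ : Equiv.Perm (Fin n)) :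
    Finset (Finset (Fin n)) := (cl H r).image (fun c => c.image σ)

/-- The other edges of a copy of `H`. -/
def othS {n : ℕ} (H : SimpleGraph (Fin n)) (r : ℕ) (σ : Equiv.Perm (Fin n)) :
    Finset (Sym2 (Fin n)) := (oth H r).image (Sym2.map σ)

lemma mem_cl {n r : ℕ} {H : SimpleGraph (Fin n)} {c : Finset (Fin n)} :
    c ∈ cl H r ↔ c.card = r ∧ ∀ x ∈ c, ∀ y ∈ c, x ≠ y → H.Adj x y := by
  unfold cl rsets
  rw [Finset.mem_filter, Finset.mem_powersetCard]
  simp

lemma mem_oth {n r : ℕ} {H : SimpleGraph (Fin n)} {x y : Fin n} :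
    s(x, y) ∈ oth H r ↔ H.Adj x y ∧ ∀ c ∈ cl H r, s(x, y) ∉ prs c := by
  unfold oth
  rw [Finset.mem_filter, mem_eF, SimpleGraph.mem_edgeSet]

lemma mem_shad {n : ℕ} {A : Finset (Finset (Fin n))} {e : Sym2 (Fin n)} :
    e ∈ shad A ↔ ∃ c ∈ A, e ∈ prs c := by
  unfold shad
  rw [Finset.mem_biUnion]

lemma mem_othS {n r : ℕ} {H : SimpleGraph (Fin n)} {σ : Equiv.Perm (Fin n)} {x y : Fin n} :
    s(x, y) ∈ othS H r σ ↔ s(σ⁻¹ x, σ⁻¹ y) ∈ oth H r := by
  unfold othS
  rw [Finset.mem_image]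
  constructor
  · rintro ⟨e, he, hxy⟩
    induction e using Sym2.ind with
    | _ a b =>
      rw [Sym2.map_mk] at hxy
      have : s(σ⁻¹ x, σ⁻¹ y) = s(a, b) := by
        rw [Sym2.eq_iff] at hxy ⊢
        rcases hxy with ⟨rfl, rfl⟩ | ⟨rfl, rfl⟩
        · left; simp
        · right; simp
      rw [this]; exact he
  · intro h
    exact ⟨_, h, by simp⟩

lemma mem_clS {n r : ℕ} {H : SimpleGraph (Fin n)} {σ : Equiv.Perm (Fin n)} {c : Finset (Fin n)} :
    c ∈ clS H r σ ↔ c.image σ.symm ∈ cl H r := by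
  unfold clS
  rw [Finset.mem_image]
  constructor
  · rintro ⟨d, hd, rfl⟩
    rw [Finset.image_image]
    simpa using hd
  · intro h
    refine ⟨_, h, ?_⟩
    rw [Finset.image_image]
    simp

lemma mem_prs_image {n : ℕ} {c : Finset (Fin n)} {σ : Equiv.Perm (Fin n)} {x y : Fin n} :
    s(x, y) ∈ prs (c.image σ.symm) ↔ s(σ x, σ y) ∈ prs c := by
  rw [mem_prs, mem_prs]
  simp only [Finset.mem_image]
  constructor
  · rintro ⟨⟨a, ha, rfl⟩, ⟨b, hb, rfl⟩, h⟩
    simp only [Equiv.apply_symm_apply]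
    exact ⟨ha, hb, fun h' => h (by rw [h'])⟩
  · rintro ⟨ha, hb, h⟩
    exact ⟨⟨_, ha, by simp⟩, ⟨_, hb, by simp⟩, fun h' => h (by rw [h'])⟩

/-- The number of permutations for which prescribed cliques and edges belong to the copy of `H`. -/
theorem perm_count {n r : ℕ} (hr : 2 ≤ r) (hn : 9 * r ≤ n) (H : SimpleGraph (Fin n))
    (hH : ∀ v, H.degree v ≤ r - 1) (Th : Finset (Finset (Fin n))) (Te : Finset (Sym2 (Fin n))) :
    (Nat.card {σ : Equiv.Perm (Fin n) // Te ⊆ othS H r σ ∧ Th ⊆ clS H r σ} : ℝ) ≤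
      (n.factorial : ℝ) * (((9 * r / n : ℝ) ^ (r - 1)) ^ Th.card
        * ((9 * r / n : ℝ) ^ (2 * r / ((r : ℝ) ^ 2 - 1))) ^ Te.card) := by
  have hnpos : (0 : ℝ) < n := by
    have : 0 < n := by omega
    exact_mod_cast this
  have hrpos : (0 : ℝ) < r := by
    have : 0 < r := by omega
    exact_mod_cast this
  have hx0 : (0 : ℝ) < 9 * r / n := by positivity
  have hx1 : (9 * r / n : ℝ) ≤ 1 := by
    rw [div_le_one hnpos]
    exact_mod_cast hn
  by_cases hemp : ∃ σ₀ : Equiv.Perm (Fin n), Te ⊆ othS H r σ₀ ∧ Th ⊆ clS H r σ₀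
  swap
  · have : IsEmpty {σ : Equiv.Perm (Fin n) // Te ⊆ othS H r σ ∧ Th ⊆ clS H r σ} :=
      ⟨fun σ => hemp ⟨σ.1, σ.2⟩⟩
    rw [Nat.card_of_isEmpty]
    push_cast
    positivity
  obtain ⟨σ₀, hσe, hσh⟩ := hemp
  set F : SimpleGraph (Fin n) := SimpleGraph.fromEdgeSet
    ((Te ∪ shad Th : Finset (Sym2 (Fin n))) : Set (Sym2 (Fin n))) with hF
  -- step 1
  have h1 : Nat.card {σ : Equiv.Perm (Fin n) // Te ⊆ othS H r σ ∧ Th ⊆ clS H r σ}
      ≤ Nat.card {τ : Equiv.Perm (Fin n) // ∀ a b, F.Adj a b → H.Adj (τ a) (τ b)} := by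
    have hprop : ∀ σ : {σ : Equiv.Perm (Fin n) // Te ⊆ othS H r σ ∧ Th ⊆ clS H r σ},
        ∀ a b, F.Adj a b → H.Adj (σ.1⁻¹ a) (σ.1⁻¹ b) := by
      intro σ a b hab
      rw [hF, SimpleGraph.fromEdgeSet_adj] at hab
      obtain ⟨hab, hne⟩ := hab
      rw [Finset.mem_coe, Finset.mem_union] at hab
      rcases hab with hab | hab
      · have := σ.2.1 hab
        rw [mem_othS, mem_oth] at this
        exact this.1
      · rw [mem_shad] at hab
        obtain ⟨c, hc, hab⟩ := hab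
        have := σ.2.2 hc
        rw [mem_clS, mem_cl] at this
        rw [mem_prs] at hab
        exact this.2 _ (Finset.mem_image_of_mem _ hab.1) _ (Finset.mem_image_of_mem _ hab.2.1)
          (fun h => hne (σ.1.symm.injective h))
    have hinj : Function.Injective (fun σ : {σ : Equiv.Perm (Fin n) //
        Te ⊆ othS H r σ ∧ Th ⊆ clS H r σ} =>
        (⟨σ.1⁻¹, hprop σ⟩ : {τ : Equiv.Perm (Fin n) // ∀ a b, F.Adj a b → H.Adj (τ a) (τ b)})) := by
      intro σ τ h
      have h' : σ.1⁻¹ = τ.1⁻¹ := congrArg Subtype.val h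
      exact Subtype.ext (inv_injective h')
    exact Nat.card_le_card_of_injective _ hinj
  -- step 2
  have h2 := card_hom_le F H hH
  set ρ := n - Nat.card F.ConnectedComponent with hρ
  -- step 3
  have h3 : 2 * r * Te.card + (r ^ 2 - 1) * (r - 1) * Th.card ≤ (r ^ 2 - 1) * ρ := by
    have hTh : Th.image (fun c => c.image σ₀.symm) ⊆ cl H r := by
      intro c hc
      rw [Finset.mem_image] at hc
      obtain ⟨d, hd, rfl⟩ := hc
      exact mem_clS.mp (hσh hd)
    have hTe : Te.image (Sym2.map σ₀.symm) ⊆ oth H r := by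
      intro e he
      rw [Finset.mem_image] at he
      obtain ⟨d, hd, rfl⟩ := he
      induction d using Sym2.ind with
      | _ a b =>
        rw [Sym2.map_mk]
        exact mem_othS.mp (hσe hd)
    have h := rank_ge hr H hH hTh hTe
    rw [Finset.card_image_of_injective _ (Sym2.map.injective σ₀.symm.injective),
      Finset.card_image_of_injective _ (Finset.image_injective σ₀.symm.injective)] at h
    have hiso : Nat.card F.ConnectedComponent = Nat.card (SimpleGraph.fromEdgeSet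
        ((Te.image (Sym2.map σ₀.symm) ∪ shad (Th.image (fun c => c.image σ₀.symm)) :
          Finset (Sym2 (Fin n))) : Set (Sym2 (Fin n)))).ConnectedComponent := by
      apply Nat.card_congr
      apply SimpleGraph.Iso.connectedComponentEquiv
      refine ⟨σ₀.symm, ?_⟩
      intro a b
      rw [hF, SimpleGraph.fromEdgeSet_adj, SimpleGraph.fromEdgeSet_adj, Finset.mem_coe,
        Finset.mem_coe, Finset.mem_union, Finset.mem_union, mem_shad, mem_shad]
      have e1 : s(σ₀.symm a, σ₀.symm b) ∈ Te.image (Sym2.map σ₀.symm) ↔ s(a, b) ∈ Te := by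
        rw [← Sym2.map_mk]
        exact (Sym2.map.injective σ₀.symm.injective).mem_finset_image
      have e2 : (∃ c ∈ Th.image (fun c => c.image σ₀.symm), s(σ₀.symm a, σ₀.symm b) ∈ prs c)
          ↔ ∃ c ∈ Th, s(a, b) ∈ prs c := by
        constructor
        · rintro ⟨c, hc, h⟩
          rw [Finset.mem_image] at hc
          obtain ⟨d, hd, rfl⟩ := hc
          rw [mem_prs_image] at h
          exact ⟨d, hd, by simpa using h⟩
        · rintro ⟨c, hc, h⟩
          refine ⟨_, Finset.mem_image_of_mem _ hc, ?_⟩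
          rw [mem_prs_image]
          simpa using h
      rw [e1, e2]
      simp
    rw [← hiso] at h
    exact h
  -- step 4
  have h4 : ((9 * ((r - 1 : ℕ) : ℝ) / n) ^ ρ : ℝ) ≤ (9 * r / n : ℝ) ^ ρ := by
    apply pow_le_pow_left₀ (by positivity)
    apply div_le_div_of_nonneg_right _ hnpos.le
    have : ((r - 1 : ℕ) : ℝ) ≤ r := by exact_mod_cast Nat.sub_le r 1
    linarith
  have hr1 : (0 : ℝ) < (r : ℝ) ^ 2 - 1 := by
    have : (2 : ℝ) ≤ r := by exact_mod_cast hr
    nlinarith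
  have h5 : (2 * r / ((r : ℝ) ^ 2 - 1)) * Te.card + ((r - 1 : ℕ) : ℝ) * Th.card ≤ (ρ : ℝ) := by
    have h3' : (2 * r * Te.card + ((r : ℝ) ^ 2 - 1) * ((r - 1 : ℕ) : ℝ) * Th.card : ℝ)
        ≤ ((r : ℝ) ^ 2 - 1) * ρ := by
      have hc : ((r ^ 2 - 1 : ℕ) : ℝ) = (r : ℝ) ^ 2 - 1 := by
        rw [Nat.cast_sub (Nat.one_le_pow _ _ (by omega))]; push_cast; ring
      rw [← hc]
      exact_mod_cast h3
    have : (2 * r / ((r : ℝ) ^ 2 - 1)) * Te.card + ((r - 1 : ℕ) : ℝ) * Th.card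
        = (2 * r * Te.card + ((r : ℝ) ^ 2 - 1) * ((r - 1 : ℕ) : ℝ) * Th.card) / ((r : ℝ) ^ 2 - 1) := by
      field_simp
    rw [this, div_le_iff₀ hr1]
    linarith
  have h6 : (9 * r / n : ℝ) ^ ρ ≤ ((9 * r / n : ℝ) ^ (r - 1)) ^ Th.card
        * ((9 * r / n : ℝ) ^ (2 * r / ((r : ℝ) ^ 2 - 1))) ^ Te.card := by
    have e1 : ((9 * r / n : ℝ) ^ (r - 1)) ^ Th.card
        = (9 * r / n : ℝ) ^ (((r - 1 : ℕ) : ℝ) * Th.card) := by
      rw [← pow_mul, ← Real.rpow_natCast]; push_cast; rfl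
    have e2 : ((9 * r / n : ℝ) ^ (2 * r / ((r : ℝ) ^ 2 - 1))) ^ Te.card
        = (9 * r / n : ℝ) ^ ((2 * r / ((r : ℝ) ^ 2 - 1)) * Te.card) := by
      rw [← Real.rpow_natCast, ← Real.rpow_mul hx0.le]
    rw [e1, e2, ← Real.rpow_add hx0, ← Real.rpow_natCast]
    apply Real.rpow_le_rpow_of_exponent_ge hx0 hx1
    linarith
  calc (Nat.card {σ : Equiv.Perm (Fin n) // Te ⊆ othS H r σ ∧ Th ⊆ clS H r σ} : ℝ)
      ≤ (Nat.card {τ : Equiv.Perm (Fin n) // ∀ a b, F.Adj a b → H.Adj (τ a) (τ b)} : ℝ) := by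
        exact_mod_cast h1
    _ ≤ _ := h2
    _ ≤ (n.factorial : ℝ) * (9 * r / n : ℝ) ^ ρ :=
        mul_le_mul_of_nonneg_left h4 (by positivity)
    _ ≤ _ := mul_le_mul_of_nonneg_left h6 (by positivity)

/-- The number of functions with prescribed values. -/
lemma card_prescribed {α : Type} [Fintype α] (M : ℕ) (S : Finset α) (c₀ : α → Fin M) :
    Nat.card {c : α → Fin M // ∀ e ∈ S, c e = c₀ e} * M ^ S.card = M ^ Fintype.card α := by
  have h1 : Nat.card {c : α → Fin M // ∀ e ∈ S, c e = c₀ e}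
      = (Fintype.piFinset (fun e => if e ∈ S then ({c₀ e} : Finset (Fin M)) else univ)).card := by
    rw [Nat.card_eq_fintype_card, Fintype.card_subtype]
    congr 1
    ext c
    rw [Finset.mem_filter, Fintype.mem_piFinset]
    constructor
    · rintro ⟨_, h⟩ e
      by_cases he : e ∈ S
      · rw [if_pos he, Finset.mem_singleton]; exact h e he
      · rw [if_neg he]; exact Finset.mem_univ _
    · intro h
      refine ⟨Finset.mem_univ _, fun e he => ?_⟩
      have := h e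
      rwa [if_pos he, Finset.mem_singleton] at this
  rw [h1, Fintype.card_piFinset]
  have h2 : ∀ e : α, (if e ∈ S then ({c₀ e} : Finset (Fin M)) else univ).card
      = if e ∈ S then 1 else M := by
    intro e
    split_ifs
    · simp
    · simp
  simp only [h2]
  rw [Finset.prod_ite, Finset.prod_const_one, one_mul, Finset.prod_const, ← pow_add]
  congr 1
  have h3 : (univ.filter (fun e => e ∉ S)) = Sᶜ := by ext e; simp
  rw [h3, Finset.card_compl]
  have := Finset.card_le_univ S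
  omega

/-- The copies of `H`, with every edge outside the cliques in one of `M` parallel versions. -/
def fam {n : ℕ} (H : SimpleGraph (Fin n)) (r M : ℕ)
    (i : Equiv.Perm (Fin n) × (Sym2 (Fin n) → Fin M)) :
    Finset ((Sym2 (Fin n) × ℕ) ⊕ Finset (Fin n)) :=
  ((othS H r i.1).image (fun e => (e, ((i.2 e : Fin M) : ℕ)))).disjSum (clS H r i.1)

lemma cl_card_le {n r : ℕ} (H : SimpleGraph (Fin n)) (hr : 2 ≤ r) (hH : ∀ v, H.degree v ≤ r - 1) :
    (cl H r).card ≤ n := by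
  have h : cl H r ⊆ univ.image (fun v => insert v (univ.filter (fun w => H.Adj v w))) := by
    intro c hc
    rw [mem_cl] at hc
    obtain ⟨hcr, hc⟩ := hc
    obtain ⟨v, hv⟩ : c.Nonempty := by
      rw [← Finset.card_pos]; omega
    rw [Finset.mem_image]
    refine ⟨v, Finset.mem_univ v, ?_⟩
    symm
    have hsub : c ⊆ insert v (univ.filter (fun w => H.Adj v w)) := by
      intro w hw
      rw [Finset.mem_insert, Finset.mem_filter]
      by_cases hwv : w = v
      · exact Or.inl hwv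
      · exact Or.inr ⟨Finset.mem_univ w, hc v hv w hw (Ne.symm hwv)⟩
    apply Finset.eq_of_subset_of_card_le hsub
    have h1 := Finset.card_insert_le v (univ.filter (fun w => H.Adj v w))
    have h2 : (univ.filter (fun w => H.Adj v w)).card = H.degree v := by
      rw [← SimpleGraph.card_neighborFinset_eq_degree]
      congr 1
      ext w
      simp
    have h3 := hH v
    omega
  calc (cl H r).card ≤ _ := Finset.card_le_card h
    _ ≤ (univ : Finset (Fin n)).card := Finset.card_image_le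
    _ = n := by simp

lemma oth_card_le {n r : ℕ} (H : SimpleGraph (Fin n)) : (oth H r).card ≤ n.choose 2 := by
  rw [← Pool.Agent.TH965.eF_top_card]
  apply Finset.card_le_card
  intro e he
  unfold oth at he
  rw [Finset.mem_filter, mem_eF] at he
  rw [mem_eF]
  exact SimpleGraph.edgeSet_mono le_top he.1

lemma othS_subset {n r : ℕ} (H : SimpleGraph (Fin n)) (σ : Equiv.Perm (Fin n)) :
    othS H r σ ⊆ eF (⊤ : SimpleGraph (Fin n)) := by
  intro e he
  induction e using Sym2.ind with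
  | _ x y =>
    rw [mem_othS, mem_oth] at he
    rw [mem_eF, SimpleGraph.mem_edgeSet, SimpleGraph.top_adj]
    intro h
    exact he.1.ne (by rw [h])

lemma clS_subset {n r : ℕ} (H : SimpleGraph (Fin n)) (σ : Equiv.Perm (Fin n)) :
    clS H r σ ⊆ rsets n r := by
  intro c hc
  rw [mem_clS, mem_cl, Finset.card_image_of_injective _ σ.symm.injective] at hc
  unfold rsets
  rw [Finset.mem_powersetCard]
  exact ⟨Finset.subset_univ c, hc.1⟩

/-- The spread of the family of copies. -/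
theorem fam_spread {n r : ℕ} (hr : 2 ≤ r) (hn : 9 * r ≤ n) (H : SimpleGraph (Fin n))
    (hH : ∀ v, H.degree v ≤ r - 1) (M : ℕ) (hM1 : 1 ≤ M)
    (hM : (9 * r / n : ℝ) ^ (2 * r / ((r : ℝ) ^ 2 - 1) - (r - 1)) ≤ M)
    (T : Finset ((Sym2 (Fin n) × ℕ) ⊕ Finset (Fin n))) :
    (Nat.card {i : Equiv.Perm (Fin n) × (Sym2 (Fin n) → Fin M) // T ⊆ fam H r M i} : ℝ) ≤
      ((9 * r / n : ℝ) ^ (r - 1)) ^ T.card
        * Fintype.card (Equiv.Perm (Fin n) × (Sym2 (Fin n) → Fin M)) := by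
  have hnpos : (0 : ℝ) < n := by
    have : 0 < n := by omega
    exact_mod_cast this
  have hrpos : (0 : ℝ) < r := by
    have : 0 < r := by omega
    exact_mod_cast this
  have hx0 : (0 : ℝ) < 9 * r / n := by positivity
  have hMpos : (0 : ℝ) < M := by exact_mod_cast hM1
  by_cases hemp : ∃ i₀ : Equiv.Perm (Fin n) × (Sym2 (Fin n) → Fin M), T ⊆ fam H r M i₀
  swap
  · have : IsEmpty {i : Equiv.Perm (Fin n) × (Sym2 (Fin n) → Fin M) // T ⊆ fam H r M i} :=
      ⟨fun i => hemp ⟨i.1, i.2⟩⟩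
    rw [Nat.card_of_isEmpty]
    push_cast
    positivity
  obtain ⟨i₀, hi₀⟩ := hemp
  set Te : Finset (Sym2 (Fin n)) := T.toLeft.image Prod.fst with hTe
  have hval : ∀ i : Equiv.Perm (Fin n) × (Sym2 (Fin n) → Fin M), T ⊆ fam H r M i →
      Te ⊆ othS H r i.1 ∧ T.toRight ⊆ clS H r i.1 ∧ ∀ x ∈ T.toLeft, ((i.2 x.1 : Fin M) : ℕ) = x.2 := by
    intro i hi
    unfold fam at hi
    rw [Finset.subset_disjSum] at hi
    obtain ⟨hl, hrt⟩ := hi
    refine ⟨?_, hrt, ?_⟩
    · intro e he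
      rw [hTe, Finset.mem_image] at he
      obtain ⟨x, hx, rfl⟩ := he
      have := hl hx
      rw [Finset.mem_image] at this
      obtain ⟨e, he, rfl⟩ := this
      exact he
    · intro x hx
      have := hl hx
      rw [Finset.mem_image] at this
      obtain ⟨e, he, rfl⟩ := this
      rfl
  have hTe_card : Te.card = T.toLeft.card := by
    rw [hTe]
    apply Finset.card_image_of_injOn
    intro x hx y hy hxy
    have h1 := (hval i₀ hi₀).2.2 x (by simpa using hx)
    have h2 := (hval i₀ hi₀).2.2 y (by simpa using hy)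
    exact Prod.ext hxy (by rw [← h1, ← h2, hxy])
  have hagree : ∀ i : Equiv.Perm (Fin n) × (Sym2 (Fin n) → Fin M), T ⊆ fam H r M i →
      ∀ e ∈ Te, i.2 e = i₀.2 e := by
    intro i hi e he
    rw [hTe, Finset.mem_image] at he
    obtain ⟨x, hx, rfl⟩ := he
    apply Fin.ext
    rw [(hval i hi).2.2 x hx, (hval i₀ hi₀).2.2 x hx]
  have hcard : Nat.card {i : Equiv.Perm (Fin n) × (Sym2 (Fin n) → Fin M) // T ⊆ fam H r M i}
      ≤ Nat.card {σ : Equiv.Perm (Fin n) // Te ⊆ othS H r σ ∧ T.toRight ⊆ clS H r σ}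
        * Nat.card {c : Sym2 (Fin n) → Fin M // ∀ e ∈ Te, c e = i₀.2 e} := by
    rw [← Nat.card_prod]
    apply Nat.card_le_card_of_injective (fun i : {i : Equiv.Perm (Fin n) × (Sym2 (Fin n) → Fin M) //
        T ⊆ fam H r M i} =>
      ((⟨i.1.1, (hval i.1 i.2).1, (hval i.1 i.2).2.1⟩, ⟨i.1.2, hagree i.1 i.2⟩) :
        {σ : Equiv.Perm (Fin n) // Te ⊆ othS H r σ ∧ T.toRight ⊆ clS H r σ}
          × {c : Sym2 (Fin n) → Fin M // ∀ e ∈ Te, c e = i₀.2 e}))
    intro i j hij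
    rw [Prod.mk.injEq, Subtype.mk.injEq, Subtype.mk.injEq] at hij
    exact Subtype.ext (Prod.ext hij.1 hij.2)
  have hperm := perm_count hr hn H hH T.toRight Te
  have hpre := card_prescribed M Te i₀.2
  set P1 := Nat.card {σ : Equiv.Perm (Fin n) // Te ⊆ othS H r σ ∧ T.toRight ⊆ clS H r σ} with hP1
  set P2 := Nat.card {c : Sym2 (Fin n) → Fin M // ∀ e ∈ Te, c e = i₀.2 e} with hP2
  set x : ℝ := 9 * r / n with hx
  set β : ℝ := 2 * r / ((r : ℝ) ^ 2 - 1) with hβ
  have hP2' : (P2 : ℝ) * (M : ℝ) ^ Te.card = (M : ℝ) ^ Fintype.card (Sym2 (Fin n)) := by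
    exact_mod_cast hpre
  have hq : x ^ β ≤ x ^ (r - 1) * M := by
    have h1 : x ^ β = x ^ (r - 1) * x ^ (β - (r - 1)) := by
      rw [← Real.rpow_natCast x (r - 1), ← Real.rpow_add hx0]
      congr 1
      rw [Nat.cast_sub (by omega)]
      push_cast
      ring
    rw [h1]
    exact mul_le_mul_of_nonneg_left hM (by positivity)
  have hTcard : T.card = Te.card + T.toRight.card := by
    rw [hTe_card, Finset.card_toLeft_add_card_toRight]
  have hcardI : (Fintype.card (Equiv.Perm (Fin n) × (Sym2 (Fin n) → Fin M)) : ℝ)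
      = n.factorial * (M : ℝ) ^ Fintype.card (Sym2 (Fin n)) := by
    rw [Fintype.card_prod, Fintype.card_perm, Fintype.card_fin, Fintype.card_fun, Fintype.card_fin]
    push_cast
    rfl
  rw [hcardI, hTcard, ← hP2']
  calc (Nat.card {i : Equiv.Perm (Fin n) × (Sym2 (Fin n) → Fin M) // T ⊆ fam H r M i} : ℝ)
      ≤ (P1 : ℝ) * P2 := by exact_mod_cast hcard
    _ ≤ ((n.factorial : ℝ) * ((x ^ (r - 1)) ^ T.toRight.card * (x ^ β) ^ Te.card)) * P2 :=
        mul_le_mul_of_nonneg_right hperm (by positivity)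
    _ ≤ ((n.factorial : ℝ) * ((x ^ (r - 1)) ^ T.toRight.card * (x ^ (r - 1) * M) ^ Te.card)) * P2 := by
        apply mul_le_mul_of_nonneg_right _ (by positivity)
        apply mul_le_mul_of_nonneg_left _ (by positivity)
        apply mul_le_mul_of_nonneg_left _ (by positivity)
        exact pow_le_pow_left₀ (by positivity) hq _
    _ = (x ^ (r - 1)) ^ (Te.card + T.toRight.card) * (n.factorial * (P2 * (M : ℝ) ^ Te.card)) := by
        rw [mul_pow, pow_add]; ring

/-- The random family of sets together with an independent random graph contains a copy of `H`. -/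
theorem spread_mixed {n r : ℕ} (hr : 2 ≤ r) (hn : 9 * r ≤ n) (H : SimpleGraph (Fin n))
    (hH : ∀ v, H.degree v ≤ r - 1) (M : ℕ) (hM1 : 1 ≤ M)
    (hM : (9 * r / n : ℝ) ^ (2 * r / ((r : ℝ) ^ 2 - 1) - (r - 1)) ≤ M) (π : ℝ)
    (hπ : ((Nat.log 2 (n ^ 2) : ℝ) + 1) * (32 * (9 * r / n : ℝ) ^ (r - 1)) ≤ π) (hπ1 : π ≤ 1) :
    6 / 7 ≤ exs (eF (⊤ : SimpleGraph (Fin n))) (1 - (1 - π) ^ M) (fun E₂ => exs (rsets n r) π
      (fun V => ind (∃ σ : Equiv.Perm (Fin n), othS H r σ ⊆ E₂ ∧ clS H r σ ⊆ V))) := by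
  have hn0 : 0 < n := by omega
  have hnpos : (0 : ℝ) < n := by exact_mod_cast hn0
  have hrpos : (0 : ℝ) < r := by
    have : 0 < r := by omega
    exact_mod_cast this
  have hx0 : (0 : ℝ) < 9 * r / n := by positivity
  have hπ0 : 0 ≤ π := le_trans (by positivity) hπ
  have : Nonempty (Fin M) := ⟨⟨0, hM1⟩⟩
  have hfam : ∀ i : Equiv.Perm (Fin n) × (Sym2 (Fin n) → Fin M),
      fam H r M i ⊆ (eF (⊤ : SimpleGraph (Fin n)) ×ˢ Finset.range M).disjSum (rsets n r) := by
    intro i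
    unfold fam
    apply Finset.disjSum_mono
    · intro x hx
      rw [Finset.mem_image] at hx
      obtain ⟨e, he, rfl⟩ := hx
      rw [Finset.mem_product, Finset.mem_range]
      exact ⟨othS_subset H i.1 he, (i.2 e).2⟩
    · exact clS_subset H i.1
  have hcard : ∀ i : Equiv.Perm (Fin n) × (Sym2 (Fin n) → Fin M), (fam H r M i).card ≤ n ^ 2 := by
    intro i
    unfold fam
    rw [Finset.card_disjSum]
    have h1 : ((othS H r i.1).image (fun e => (e, ((i.2 e : Fin M) : ℕ)))).card ≤ n.choose 2 :=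
      Finset.card_image_le.trans ((Finset.card_image_le).trans (oth_card_le H))
    have h2 : (clS H r i.1).card ≤ n := Finset.card_image_le.trans (cl_card_le H hr hH)
    have h3 : n.choose 2 * 2 = n * (n - 1) := by
      rw [Nat.choose_two_right]
      exact Nat.div_mul_cancel (Nat.even_mul_pred_self n).two_dvd
    have h4 : n * (n - 1) + n = n ^ 2 := by
      obtain ⟨m, rfl⟩ : ∃ m, n = m + 1 := ⟨n - 1, by omega⟩
      simp only [Nat.add_sub_cancel]; ring
    have h5 : n ≤ n ^ 2 := Nat.le_self_pow (by norm_num) n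
    have h6 : 2 ≤ n := by omega
    have h7 : 2 * n ≤ n ^ 2 := by rw [pow_two]; exact Nat.mul_le_mul_right n h6
    omega
  have key := spread ((eF (⊤ : SimpleGraph (Fin n)) ×ˢ Finset.range M).disjSum (rsets n r))
    (fam H r M) hfam (n ^ 2) hcard ((9 * r / n : ℝ) ^ (r - 1)) (by positivity)
    (fam_spread hr hn H hH M hM1 hM) π hπ hπ1
  refine key.trans ?_
  rw [exs_disjSum]
  rw [← exs_prod_range (eF (⊤ : SimpleGraph (Fin n))) π M]
  apply exs_mono _ hπ0 hπ1
  intro U _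
  apply exs_mono _ hπ0 hπ1
  intro V _
  split_ifs with h
  · obtain ⟨i, hi⟩ := h
    unfold fam at hi
    rw [Finset.disjSum_subset, Finset.toLeft_disjSum, Finset.toRight_disjSum] at hi
    rw [ind_true]
    refine ⟨i.1, ?_, hi.2⟩
    intro e he
    rw [Finset.mem_image]
    exact ⟨_, hi.1 (Finset.mem_image_of_mem _ he), rfl⟩
  · exact ind_nonneg _

/-- `G` contains a copy of `H`. -/
def Has {n : ℕ} (H G : SimpleGraph (Fin n)) : Prop :=
  ∃ f : Fin n → Fin n, Function.Injective f ∧ ∀ u v : Fin n, H.Adj u v → G.Adj (f u) (f v)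

lemma has_of {n r : ℕ} (H : SimpleGraph (Fin n)) (σ : Equiv.Perm (Fin n))
    (E₂ W : Finset (Sym2 (Fin n))) (A : Finset (Finset (Fin n))) (h1 : othS H r σ ⊆ E₂)
    (h2 : clS H r σ ⊆ A) (h3 : shad A ⊆ W) :
    Has H (SimpleGraph.fromEdgeSet ((E₂ ∪ W : Finset (Sym2 (Fin n))) : Set (Sym2 (Fin n)))) := by
  refine ⟨σ, σ.injective, ?_⟩
  intro u v huv
  rw [SimpleGraph.fromEdgeSet_adj]
  refine ⟨?_, fun h => huv.ne (σ.injective h)⟩
  rw [Finset.mem_coe, Finset.mem_union]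
  by_cases ho : s(u, v) ∈ oth H r
  · left
    apply h1
    rw [mem_othS]
    simpa using ho
  · right
    rw [mem_oth] at ho
    push Not at ho
    obtain ⟨c, hc, huvc⟩ := ho huv
    apply h3
    rw [mem_shad]
    refine ⟨c.image σ, h2 ?_, ?_⟩
    · unfold clS
      exact Finset.mem_image_of_mem _ hc
    · rw [mem_prs] at huvc ⊢
      exact ⟨Finset.mem_image_of_mem _ huvc.1, Finset.mem_image_of_mem _ huvc.2.1,
        fun h => huvc.2.2 (σ.injective h)⟩

/-- Combination of the coupling with the spread of the copies. -/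
theorem gnp_ge {n r D : ℕ} (hr : 2 ≤ r) (hn : 9 * r ≤ n) (H : SimpleGraph (Fin n))
    (hH : ∀ v, H.degree v ≤ r - 1) (M : ℕ) (hM1 : 1 ≤ M)
    (hM : (9 * r / n : ℝ) ^ (2 * r / ((r : ℝ) ^ 2 - 1) - (r - 1)) ≤ M) (B : ℝ) (hB1 : 1 ≤ B)
    (p₁ : ℝ) (hp0 : 0 ≤ p₁) (hp1 : p₁ ≤ 1)
    (hB : ∀ A ⊆ rsets n r, Typ r D A → ∀ h ∈ A,
      ∑ i ∈ (rsets n r).filter (fun i => i ∉ A ∧ 2 ≤ (i ∩ h).card), p₁ ^ (prs i \ shad A).card ≤ B)
    (hπ : ((Nat.log 2 (n ^ 2) : ℝ) + 1) * (32 * (9 * r / n : ℝ) ^ (r - 1))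
      ≤ p₁ ^ (r.choose 2) / (4 * B))
    (htyp : exs (rsets n r) (p₁ ^ (r.choose 2) / (4 * B)) (fun A => ind (¬ Typ r D A)) ≤ 1 / 7) :
    5 / 7 ≤ Pool.Agent.TH965.gnp n
      ((1 - (1 - p₁ ^ (r.choose 2) / (4 * B)) ^ M) + p₁
        - (1 - (1 - p₁ ^ (r.choose 2) / (4 * B)) ^ M) * p₁) (Has H) := by
  set π := p₁ ^ (r.choose 2) / (4 * B) with hπd
  have hπ0 : 0 ≤ π := by positivity
  have hπ1 : π ≤ 1 := by
    rw [hπd, div_le_one (by positivity)]
    have := pow_le_one₀ (n := r.choose 2) hp0 hp1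
    linarith
  have hq0 : 0 ≤ 1 - (1 - π) ^ M := by
    have := pow_le_one₀ (n := M) (by linarith : (0:ℝ) ≤ 1 - π) (by linarith)
    linarith
  have hq1 : 1 - (1 - π) ^ M ≤ 1 := by
    have := pow_nonneg (by linarith : (0:ℝ) ≤ 1 - π) M
    linarith
  have h1 := spread_mixed hr hn H hH M hM1 hM π hπ hπ1
  rw [Pool.Agent.TH965.gnp_eq_exs, exs_union]
  have h2 : ∀ E₂ : Finset (Sym2 (Fin n)), exs (rsets n r) π
      (fun V => ind (∃ σ : Equiv.Perm (Fin n), othS H r σ ⊆ E₂ ∧ clS H r σ ⊆ V))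
      ≤ exs (eF (⊤ : SimpleGraph (Fin n))) p₁ (fun W₂ => if Has H (SimpleGraph.fromEdgeSet
        ((E₂ ∪ W₂ : Finset (Sym2 (Fin n))) : Set (Sym2 (Fin n)))) then 1 else 0) + 1 / 7 := by
    intro E₂
    have h3 := coupling B hB1 hp0 hp1 hB
      (fun V => ∃ σ : Equiv.Perm (Fin n), othS H r σ ⊆ E₂ ∧ clS H r σ ⊆ V)
      (fun W₂ => if Has H (SimpleGraph.fromEdgeSet
        ((E₂ ∪ W₂ : Finset (Sym2 (Fin n))) : Set (Sym2 (Fin n)))) then 1 else 0)
      (fun W => by split_ifs <;> norm_num) ?_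
    · rw [← hπd] at h3
      linarith
    · rintro A _ ⟨σ, hσ1, hσ2⟩ W _ hAW
      rw [if_pos (has_of H σ E₂ W A hσ1 hσ2 hAW)]
  have h4 : (6 : ℝ) / 7 ≤ exs (eF (⊤ : SimpleGraph (Fin n))) (1 - (1 - π) ^ M)
      (fun W₁ => exs (eF (⊤ : SimpleGraph (Fin n))) p₁ (fun W₂ => if Has H (SimpleGraph.fromEdgeSet
        ((W₁ ∪ W₂ : Finset (Sym2 (Fin n))) : Set (Sym2 (Fin n)))) then 1 else 0) + 1 / 7) :=
    h1.trans (exs_mono _ hq0 hq1 (fun E₂ _ => h2 E₂))
  rw [exs_add, exs_const] at h4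
  linarith

end

end Pool.Agent.TH948.BD
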